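import Pool.Agent.Lib.MP_ba0fa5_ag.Iface

/-!
Module GONE: the points over `x = 1`, from the points over `x = 0` by the substitution `X ↦ 1 - X`.
-/

set_option autoImplicit false

namespace Pool.Agent.Lib.MP_ba0fa5_ag.H63

open scoped Classical
open Pool.Agent.Lib.MP_ba0fa5_ag Polynomial

variable {k : Type} [Field k]

/-- `X ↦ 1 - X` on polynomials. -/
noncomputable def tau : k[X] →ₐ[k] k[X] := aeval (1 - X)

theorem tau_X : (tau (X : k[X])) = 1 - X := by simp [tau]

theorem tau_tau (p : k[X]) : tau (tau p) = p := by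
  have h : (tau.comp tau : k[X] →ₐ[k] k[X]) = AlgHom.id k k[X] := by
    apply Polynomial.algHom_ext
    simp [tau]
  exact DFunLike.congr_fun h p

theorem tau_inj : Function.Injective (tau : k[X] →ₐ[k] k[X]) := fun p q h => by
  rw [← tau_tau p, h, tau_tau]

theorem tau_le : nonZeroDivisors k[X] ≤ (nonZeroDivisors k[X]).comap (tau : k[X] →ₐ[k] k[X]) := by
  intro p hp
  rw [Submonoid.mem_comap, mem_nonZeroDivisors_iff_ne_zero]
  intro h
  exact (mem_nonZeroDivisors_iff_ne_zero.1 hp) (tau_inj (by rw [h, map_zero]))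

/-- `X ↦ 1 - X` on rational functions. -/
noncomputable def sig : RatFunc k →ₐ[k] RatFunc k := RatFunc.mapAlgHom tau tau_le

theorem sig_poly (p : k[X]) :
    (sig (algebraMap k[X] (RatFunc k) p)) = algebraMap k[X] (RatFunc k) (tau p) := by
  have h := RatFunc.map_apply_div (φ := (tau : k[X] →ₐ[k] k[X])) (hφ := tau_le) (p := p) (q := 1)
  unfold sig
  rw [RatFunc.coe_mapAlgHom_eq_coe_map]
  simpa using h

theorem sig_X : (sig (RatFunc.X : RatFunc k)) = 1 - RatFunc.X := by
  rw [← RatFunc.algebraMap_X, sig_poly, tau_X, map_sub, map_one]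

theorem sig_sig (z : RatFunc k) : sig (sig z) = z := by
  induction z using RatFunc.induction_on with
  | f p q hq =>
    rw [map_div₀, map_div₀, sig_poly, sig_poly, sig_poly, sig_poly, tau_tau, tau_tau]

variable {K : Type} [Field K] [Algebra k K]

theorem kummer_swap {m a b : ℕ} {ι : RatFunc k →ₐ[k] K} {y : K} (h : Kummer k K m a b ι y) :
    Kummer k K m b a (ι.comp sig) y := by
  constructor
  · rw [h.eq]
    simp only [AlgHom.comp_apply, map_mul, map_pow, map_sub, map_one, sig_X]
    rw [mul_comm]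
    congr 2
    ring
  · intro z
    obtain ⟨c, hc, hu⟩ := h.basis z
    refine ⟨fun i => sig (c i), ?_, ?_⟩
    · simp only [AlgHom.comp_apply, sig_sig]
      exact hc
    · intro c' hc'
      have := hu (fun i => sig (c' i)) (by simpa [AlgHom.comp_apply] using hc')
      funext i
      rw [← congrFun this i, sig_sig]

theorem adjoin_one_sub (x : K) : Algebra.adjoin k {1 - x} = Algebra.adjoin k {x} := by
  apply le_antisymm
  · apply Algebra.adjoin_le
    rintro _ rfl
    exact Subalgebra.sub_mem _ (Subalgebra.one_mem _) (Algebra.subset_adjoin rfl)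
  · have h : (1 : K) - (1 - x) ∈ Algebra.adjoin k {1 - x} :=
      Subalgebra.sub_mem _ (Subalgebra.one_mem _) (Algebra.subset_adjoin rfl)
    rw [sub_sub_cancel] at h
    apply Algebra.adjoin_le
    intro z hz
    rw [Set.mem_singleton_iff.1 hz]
    exact h

theorem intCl_one_sub (x : K) : intCl k K {1 - x} = intCl k K {x} := by
  have key : ∀ R R' : Subalgebra k K, R = R' →
      ∀ z : K, IsIntegral R z ↔ IsIntegral R' z := by
    rintro R _ rfl z
    rfl
  ext z
  rw [mem_intCl, mem_intCl]
  exact key _ _ (adjoin_one_sub x) z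

theorem self_mem_intCl (x : K) : x ∈ intCl k K {x} := by
  rw [mem_intCl]
  exact isIntegral_algebraMap (R := Algebra.adjoin k {x}) (A := K)
    (x := ⟨x, Algebra.subset_adjoin rfl⟩)

theorem gone (h1 : GzeroStmt) : GoneStmt := by
  intro k K _ _ _ m a b ι y hK hm hζ F _ _ _
  have h := h1 k K m b a (ι.comp sig) y (kummer_swap hK) hm hζ F
  have hx : (ι.comp sig) RatFunc.X = 1 - ι RatFunc.X := by
    rw [AlgHom.comp_apply, sig_X, map_sub, map_one]
  rw [hx] at h
  rw [← h]
  have key : ∀ S : Subalgebra k K, ι RatFunc.X ∈ S →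
      Nat.card {φ : S →ₐ[k] F // ∀ h : ι RatFunc.X ∈ S, φ ⟨ι RatFunc.X, h⟩ = 1} =
      Nat.card {φ : S →ₐ[k] F // ∀ h : 1 - ι RatFunc.X ∈ S, φ ⟨1 - ι RatFunc.X, h⟩ = 0} := by
    intro S hS
    apply Nat.card_congr
    apply Equiv.subtypeEquivRight
    intro φ
    have hS' : 1 - ι RatFunc.X ∈ S := Subalgebra.sub_mem _ (Subalgebra.one_mem _) hS
    have e : φ ⟨1 - ι RatFunc.X, hS'⟩ = 1 - φ ⟨ι RatFunc.X, hS⟩ := by
      rw [← map_one φ, ← map_sub]
      rfl
    constructor
    · intro h' _
      rw [e, h' hS, sub_self]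
    · intro h' _
      have := h' hS'
      rw [e, sub_eq_zero] at this
      exact this.symm
  rw [key _ (self_mem_intCl _), intCl_one_sub]

end Pool.Agent.Lib.MP_ba0fa5_ag.H63
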