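import Pool.Agent.Lib.MP_ba0fa5_ag.Iface

/-!
Module GFINAL: the supersingular curve of genus `g` with `2g - 2 = m - d₁ - d₂ - d₃`.
-/

set_option autoImplicit false

namespace Pool.Agent.Lib.MP_ba0fa5_ag.H63

open scoped Classical
open Pool.Agent.Lib.MP_ba0fa5_ag

/-- a finite field with `q` elements contains a primitive `m`-th root of unity if `m ∣ q - 1`. -/
theorem exists_prim (k : Type) [Field k] [Fintype k] (m : ℕ) (h : m ∣ Fintype.card k - 1) :
    ∃ ζ : k, IsPrimitiveRoot ζ m := by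
  obtain ⟨u, hu⟩ := IsCyclic.exists_generator (α := kˣ)
  have hord : orderOf u = Fintype.card k - 1 := by
    rw [orderOf_eq_card_of_forall_mem_zpowers hu, Nat.card_eq_fintype_card, Fintype.card_units]
  obtain ⟨c, hc⟩ := h
  have hpos : 0 < Fintype.card k - 1 := by
    have := Fintype.one_lt_card (α := k)
    omega
  have hu' : IsPrimitiveRoot (u : k) (Fintype.card k - 1) := by
    rw [← hord]
    exact (IsPrimitiveRoot.orderOf u).map_of_injective (f := Units.coeHom k) Units.val_injective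
  refine ⟨(u : k) ^ c, ?_⟩
  exact hu'.pow hpos (by rw [hc, mul_comm])

theorem gfinal (h1 : GcrtStmt) (h2 : GcountStmt) (h3 : GexistStmt) (h4 : GfinStmt)
    (h5 : GconstStmt) (h6 : GgenusStmt) (h7 : GptsStmt) (h8 : GjacStmt) : GfinalStmt := by
  intro p i m d₁ d₂ d₃ g hp hi hm hdvd h12 h13 h23 hd hg
  obtain ⟨a, b, ha, hb, hab⟩ := h1 m d₁ d₂ d₃ hm h12 h13 h23 hd
  have hm0 : 0 < m := hm.pos
  have hgcd : (a.gcd b).gcd m = 1 := by
    have e1 : (a.gcd b).gcd m ∣ a.gcd m :=
      Nat.dvd_gcd ((Nat.gcd_dvd_left _ _).trans (Nat.gcd_dvd_left _ _)) (Nat.gcd_dvd_right _ _)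
    have e2 : (a.gcd b).gcd m ∣ b.gcd m :=
      Nat.dvd_gcd ((Nat.gcd_dvd_left _ _).trans (Nat.gcd_dvd_right _ _)) (Nat.gcd_dvd_right _ _)
    rw [ha] at e1
    rw [hb] at e2
    exact Nat.eq_one_of_dvd_coprimes h12 e1 e2
  haveI : Fact p.Prime := ⟨hp⟩
  have hi2 : 2 * i ≠ 0 := by omega
  letI : Fintype (GaloisField p (2 * i)) := Fintype.ofFinite _
  have hcard : Fintype.card (GaloisField p (2 * i)) = p ^ (2 * i) := by
    rw [← Nat.card_eq_fintype_card, GaloisField.card p (2 * i) hi2]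
  have hζ : ∃ ζ : GaloisField p (2 * i), IsPrimitiveRoot ζ m := by
    apply exists_prim
    rw [hcard]
    have e : p ^ (2 * i) - 1 = (p ^ i + 1) * (p ^ i - 1) := by
      have := Nat.sq_sub_sq (p ^ i) 1
      rw [one_pow, ← pow_mul, mul_comm i 2] at this
      exact this
    rw [e]
    exact hdvd.mul_right _
  obtain ⟨K, fK, aK, ι, y, hK⟩ := h3 (GaloisField p (2 * i)) m a b hm hgcd
  refine ⟨GaloisField p (2 * i), K, inferInstance, inferInstance, fK, aK, ι RatFunc.X, ?_⟩
  obtain ⟨htr, hfin⟩ := h4 _ K m a b ι y hK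
  have hcount := h2 m a b hm hgcd
  rw [ha, hb, hab] at hcount
  have hcg : ((Finset.range m).filter (fun j => m < (j * a) % m + (j * b) % m)).card = g := by
    omega
  refine ⟨inferInstance, htr, hfin, h5 _ K m a b ι y hK hm0 hζ hgcd, ?_, ?_⟩
  · have := h6 _ K m a b ι y hK hm0 hζ
    rw [hcg] at this
    exact this
  · refine ⟨-(p : ℤ) ^ i, ?_, ?_⟩
    · rw [hcard]
      push_cast
      ring
    · intro F fF ftF aF
      have hn : 0 < Module.finrank (GaloisField p (2 * i)) F := Module.finrank_pos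
      have hF : Fintype.card F = p ^ (2 * i * Module.finrank (GaloisField p (2 * i)) F) := by
        rw [Module.card_eq_pow_finrank (K := GaloisField p (2 * i)) (V := F), hcard, ← pow_mul]
      haveI : CharP F p :=
        charP_of_injective_algebraMap (algebraMap (GaloisField p (2 * i)) F).injective p
      have e1 := h7 _ K m a b ι y hK hm hζ F
      have e2 := h8 p i m (Module.finrank (GaloisField p (2 * i)) F) a b F hi hn hm hdvd hgcd hF
      rw [ha, hb, hab] at e1 e2
      rw [e1]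
      push_cast at e2 ⊢
      rw [e2]
      have e3 : (m : ℤ) + 2 = 2 * g + d₁ + d₂ + d₃ := by exact_mod_cast hg.symm
      rw [e3]
      ring

end Pool.Agent.Lib.MP_ba0fa5_ag.H63
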